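import Pool.Agent.PPS10.Explicit

set_option autoImplicit false

namespace Pool.Agent.Results.MP_6908e7_al.ExplicitTest

open Pool.Agent.PPS10

open scoped Classical in
/-- An explicit test set. Let `ω_i ∈ Y` be coweights with `⟨α_j, ω_i⟩ = m_i δ_{ij}`, `m_i > 0`. If `E(S_λ)` is perverse
for `λ = -ω_i` and for all `λ` with `-⟨w_λ α_i, λ⟩ < m_i + [w_λ α_i < 0]` for all simple roots `α_i`, then it is perverse
for all `λ`. For a semisimple group of adjoint type (`m_i = 1`) these are at most `|W_f| + r` coweights. -/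
theorem result {ι X Y : Type} [Fintype ι] [AddCommGroup X] [AddCommGroup Y]
    (P : RootPairing ι ℤ X Y) [P.IsReduced] (b : P.Base) (m : ι → ℤ) (om : ι → Y)
    (hm : ∀ i ∈ b.support, 0 < m i)
    (hom : ∀ i ∈ b.support, ∀ j ∈ b.support,
      P.toLinearMap (P.root j) (om i) = if j = i then m i else 0)
    (A : HeckeAlg b) (E : ParitySystem A)
    (h1 : ∀ lam, (∀ i ∈ b.support, -P.toLinearMap (P.root (wl b lam • i)) lam <
      m i + ng b (wl b lam • i)) → E.IsPerverse lam)
    (h2 : ∀ i ∈ b.support, E.IsPerverse (-om i)) : ∀ lam, E.IsPerverse lam :=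
  fun lam => explicit_test hm hom E h1 h2 lam

end Pool.Agent.Results.MP_6908e7_al.ExplicitTest
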