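import Pool.Agent.PPS10.Main
import Pool.Agent.PPS10.HeckeEx

set_option autoImplicit false

namespace Pool.Agent.Results.MP_6908e7_al.FiniteTest

open Pool.Agent.PPS10

/-- Let `P` be a reduced root datum with finitely many roots (weight lattice `X`, coweight lattice `Y`) and `b` a base.
The Iwahori-Hecke algebra of the extended affine Weyl group exists, and there is a finite set `F` of coweights, depending
only on the root datum, such that for every parity system (stalks of the indecomposable parity sheaves on the affine
Grassmannian, for one field of coefficients) perversity of the `E(S_λ)` with `λ ∈ F` implies that all `E(S_λ)` are perverse.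
So if, for a family of parity systems indexed by the primes, every single `E(S_λ)` is perverse for all large primes, then
there is one bound `N` such that all `E(S_λ)` are perverse for all primes greater than `N`. -/
theorem result {ι X Y : Type} [Fintype ι] [AddCommGroup X] [AddCommGroup Y]
    (P : RootPairing ι ℤ X Y) [P.IsReduced] (b : P.Base) :
    Nonempty (HeckeAlg b) ∧
    (∃ F : Finset Y, ∀ (A : HeckeAlg b) (E : ParitySystem A),
      (∀ lam ∈ F, E.IsPerverse lam) → ∀ lam, E.IsPerverse lam) ∧
    ∀ (A : HeckeAlg b) (E : {p : ℕ // p.Prime} → ParitySystem A),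
      (∀ lam, ∃ N : ℕ, ∀ p, N < p.1 → (E p).IsPerverse lam) →
      ∃ N : ℕ, ∀ p, N < p.1 → ∀ lam, (E p).IsPerverse lam := by
  obtain ⟨F, hF⟩ := exists_finite_test b
  refine ⟨exists_heckeAlg b, ⟨F, hF⟩, fun A E h => ?_⟩
  choose N hN using h
  refine ⟨F.sup N, fun p hp => hF A (E p) fun lam hlam => hN lam p ?_⟩
  exact lt_of_le_of_lt (Finset.le_sup (f := N) hlam) hp

end Pool.Agent.Results.MP_6908e7_al.FiniteTest
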